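import Pool.Agent.H25.MM.H338R2.Smyth

/-!
# One complex polynomial and its conjugate reciprocal

For a complex polynomial `p` of degree `D` with coefficients `a_0, …, a_D`, `a_0 a_D ≠ 0`, the
coefficients `d_j = conj a_D * a_j - a_0 * conj a_(D-j)` satisfy
`|d_j| |a_0 a_D|² ≤ M(p)⁶ / 4` for the least `j` with `d_j ≠ 0`.
-/

set_option autoImplicit false

open Polynomial

namespace Pool.Agent.TH845.KN

open Pool.Agent.H338R2

noncomputable section

/-- conjugate reciprocal of a complex polynomial -/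
def dual (p : ℂ[X]) : ℂ[X] := (p.reverse).map (starRingEnd ℂ)

lemma ps_uB (m : Multiset ℂ) :
    (((m.map (fun a => (X - C a : ℂ[X]))).prod : ℂ[X]) : PowerSeries ℂ) = (m.map uB).prod := by
  induction m using Multiset.induction_on with
  | empty => simp
  | cons a m ih =>
    rw [Multiset.map_cons, Multiset.prod_cons, Multiset.map_cons, Multiset.prod_cons,
      Polynomial.coe_mul, ih]
    congr 1
    rw [uB]
    ext n
    simp [PowerSeries.coeff_X, PowerSeries.coeff_C]

lemma ps_uA (m : Multiset ℂ) :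
    (((m.map (fun a => (1 - C (starRingEnd ℂ a) * X : ℂ[X]))).prod : ℂ[X]) : PowerSeries ℂ) =
      (m.map uA).prod := by
  induction m using Multiset.induction_on with
  | empty => simp
  | cons a m ih =>
    rw [Multiset.map_cons, Multiset.prod_cons, Multiset.map_cons, Multiset.prod_cons,
      Polynomial.coe_mul, ih]
    congr 1
    rw [uA]
    simp

lemma rev_X_sub_C (a : ℂ) : (X - C a : ℂ[X]).reverse = 1 - C a * X := by
  ext n
  rw [Polynomial.coeff_reverse, Polynomial.natDegree_X_sub_C]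
  rcases Nat.lt_or_ge 1 n with h1 | h1
  · rw [Polynomial.revAt_eq_self_of_lt h1]
    rw [Polynomial.coeff_sub, Polynomial.coeff_sub, Polynomial.coeff_X, Polynomial.coeff_C,
      Polynomial.coeff_one, Polynomial.coeff_C_mul, Polynomial.coeff_X]
    rw [if_neg (by omega), if_neg (by omega), if_neg (by omega)]
    simp
  · rw [Polynomial.revAt_le h1]
    interval_cases n
    · simp
    · simp [Polynomial.coeff_one]

lemma rev_prod (s : Multiset ℂ) :
    ((s.map (fun a => (X - C a : ℂ[X]))).prod).reverse =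
      (s.map (fun a => (1 - C a * X : ℂ[X]))).prod := by
  induction s using Multiset.induction_on with
  | empty =>
    rw [Multiset.map_zero, Multiset.prod_zero, Multiset.map_zero, Multiset.prod_zero]
    simpa using Polynomial.reverse_C (1 : ℂ)
  | cons a s ih =>
    rw [Multiset.map_cons, Multiset.prod_cons, Polynomial.reverse_mul_of_domain, ih,
      Multiset.map_cons, Multiset.prod_cons, rev_X_sub_C]

/-- inner factors of `p` and of its conjugate reciprocal -/
theorem inner_factors (p : ℂ[X]) (h0 : p.coeff 0 ≠ 0) :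
    ∃ F H T : PowerSeries ℂ, (∀ N v, SN N (F * v) ≤ SN N v) ∧ (∀ N v, SN N (H * v) ≤ SN N v) ∧
      ((p : ℂ[X]) : PowerSeries ℂ) = F * T ∧
      PowerSeries.C p.leadingCoeff * ((dual p : ℂ[X]) : PowerSeries ℂ) =
        PowerSeries.C (starRingEnd ℂ p.leadingCoeff) * (H * T) ∧
      ‖PowerSeries.coeff 0 T‖ = p.mahlerMeasure := by
  classical
  have hp : p ≠ 0 := by
    rintro rfl
    simp at h0
  set R := p.roots with hR
  set s := R.filter (fun a => ‖a‖ ≤ 1) with hs
  set t := R.filter (fun a => ¬ ‖a‖ ≤ 1) with ht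
  have hst : s + t = R := Multiset.filter_add_not _ _
  obtain ⟨F, hF1, hF2⟩ := exists_inner s (fun a ha => (Multiset.mem_filter.1 ha).2)
  obtain ⟨H, hH1, hH2⟩ := exists_inner' t (fun a ha => not_le.1 (Multiset.mem_filter.1 ha).2)
  have hfprod : p = C p.leadingCoeff * (R.map (fun a => (X - C a : ℂ[X]))).prod :=
    (IsAlgClosed.splits p).eq_prod_roots
  have hf_eq : ((p : ℂ[X]) : PowerSeries ℂ) = PowerSeries.C p.leadingCoeff * (R.map uB).prod := by
    conv_lhs => rw [hfprod]
    rw [Polynomial.coe_mul, Polynomial.coe_C, ps_uB]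
  have hd_eq : ((dual p : ℂ[X]) : PowerSeries ℂ) =
      PowerSeries.C (starRingEnd ℂ p.leadingCoeff) * (R.map uA).prod := by
    have h1 : dual p = C (starRingEnd ℂ p.leadingCoeff) *
        (R.map (fun a => (1 - C (starRingEnd ℂ a) * X : ℂ[X]))).prod := by
      unfold dual
      conv_lhs => rw [hfprod]
      rw [Polynomial.reverse_mul_of_domain, Polynomial.reverse_C, rev_prod, Polynomial.map_mul,
        Polynomial.map_C, Polynomial.map_multiset_prod, Multiset.map_map]
      congr 2
      apply Multiset.map_congr rfl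
      intro a _
      simp
    rw [h1, Polynomial.coe_mul, Polynomial.coe_C, ps_uA]
  refine ⟨F, H, PowerSeries.C p.leadingCoeff * ((s.map uA).prod * (t.map uB).prod), hF2, hH2,
    ?_, ?_, ?_⟩
  · rw [hf_eq, ← hst, Multiset.map_add, Multiset.prod_add, ← hF1]
    ring
  · rw [hd_eq, ← hst, Multiset.map_add, Multiset.prod_add, ← hH1]
    ring
  · rw [PowerSeries.coeff_zero_eq_constantCoeff_apply, map_mul, map_mul, norm_mul, norm_mul,
      mahlerMeasure_eq_leadingCoeff_mul_prod_roots]
    have h2 : ∀ m : Multiset ℂ, ‖PowerSeries.constantCoeff (m.map uB).prod‖ =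
        (m.map (fun a => ‖a‖)).prod := by
      intro m
      induction m using Multiset.induction_on with
      | empty => simp
      | cons a m ih =>
        rw [Multiset.map_cons, Multiset.prod_cons, map_mul, norm_mul, ih, Multiset.map_cons,
          Multiset.prod_cons]
        congr 1
        simp [uB]
    have h3 : ∀ m : Multiset ℂ, ‖PowerSeries.constantCoeff (m.map uA).prod‖ = 1 := by
      intro m
      induction m using Multiset.induction_on with
      | empty => simp
      | cons a m ih =>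
        rw [Multiset.map_cons, Multiset.prod_cons, map_mul, norm_mul, ih]
        simp [uA]
    rw [h2, h3, one_mul, PowerSeries.constantCoeff_C, ← hR, ← hst, Multiset.map_add,
      Multiset.prod_add]
    have h5 : (s.map (fun a => max 1 ‖a‖)).prod = 1 := by
      apply Multiset.prod_eq_one
      intro x hx
      obtain ⟨a, ha, rfl⟩ := Multiset.mem_map.1 hx
      exact max_eq_left (Multiset.mem_filter.1 ha).2
    have h6 : t.map (fun a => max 1 ‖a‖) = t.map (fun a => ‖a‖) := by
      apply Multiset.map_congr rfl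
      intro a ha
      exact max_eq_right (not_le.1 (Multiset.mem_filter.1 ha).2).le
    rw [h5, h6, one_mul]

/-- the real inequality -/
lemma real_ineq {M x y d : ℝ} (hM : 0 < M) (hx0 : 0 < x) (hy0 : 0 < y) (hx : x ≤ M) (hy : y ≤ M)
    (hd : d ≤ M * (y * (1 - (x / M) ^ 2) + x * (1 - (y / M) ^ 2))) :
    4 * (d * (x * y) ^ 2) ≤ M ^ 6 := by
  have h1 : M * (y * (1 - (x / M) ^ 2) + x * (1 - (y / M) ^ 2)) = (x + y) * (M ^ 2 - x * y) / M := by
    field_simp
    ring
  rw [h1, le_div_iff₀ hM] at hd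
  have h2 : 0 < x * y := by positivity
  have h3 : (x + y) * M ≤ M ^ 2 + x * y := by nlinarith [mul_nonneg (sub_nonneg.2 hx) (sub_nonneg.2 hy)]
  have h4 : x * y ≤ M ^ 2 := by nlinarith
  have h5 : d * M ^ 2 ≤ (M ^ 2 + x * y) * (M ^ 2 - x * y) := by
    calc d * M ^ 2 = (d * M) * M := by ring
      _ ≤ ((x + y) * (M ^ 2 - x * y)) * M := by gcongr
      _ = ((x + y) * M) * (M ^ 2 - x * y) := by ring
      _ ≤ _ := by
        apply mul_le_mul_of_nonneg_right h3
        linarith
  have h6 : 4 * (d * (x * y) ^ 2) * M ^ 2 ≤ M ^ 6 * M ^ 2 := by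
    calc 4 * (d * (x * y) ^ 2) * M ^ 2 = 4 * (x * y) ^ 2 * (d * M ^ 2) := by ring
      _ ≤ 4 * (x * y) ^ 2 * ((M ^ 2 + x * y) * (M ^ 2 - x * y)) := by gcongr
      _ = 4 * ((x * y) ^ 2 * (M ^ 4 - (x * y) ^ 2)) := by ring
      _ ≤ M ^ 6 * M ^ 2 := by nlinarith [sq_nonneg (M ^ 4 - 2 * (x * y) ^ 2)]
  exact le_of_mul_le_mul_right h6 (by positivity)

/-- The basic inequality. -/
theorem dual_bound (p : ℂ[X]) (h0 : p.coeff 0 ≠ 0) (j : ℕ)
    (hj : ∀ i < j, starRingEnd ℂ p.leadingCoeff * p.coeff i - p.coeff 0 * (dual p).coeff i = 0)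
    (hj0 : 0 < j) :
    4 * (‖starRingEnd ℂ p.leadingCoeff * p.coeff j - p.coeff 0 * (dual p).coeff j‖ *
      (‖p.coeff 0‖ * ‖p.leadingCoeff‖) ^ 2) ≤ p.mahlerMeasure ^ 6 := by
  obtain ⟨F, H, T, hF, hH, h1, h2, h3⟩ := inner_factors p h0
  have hp : p ≠ 0 := by
    rintro rfl
    simp at h0
  set a := p.leadingCoeff with ha
  have ha0 : a ≠ 0 := leadingCoeff_ne_zero.2 hp
  have hca0 : starRingEnd ℂ a ≠ 0 := (_root_.map_ne_zero _).2 ha0
  set b := p.coeff 0 with hb
  set M := p.mahlerMeasure with hM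
  have hMpos : 0 < M := mahlerMeasure_pos_of_ne_zero hp
  have hT0 : PowerSeries.coeff 0 T ≠ 0 := by
    intro h
    rw [h, norm_zero] at h3
    exact hMpos.ne h3
  -- the constant coefficients of `F` and `H`
  have hF0 : b = PowerSeries.coeff 0 F * PowerSeries.coeff 0 T := by
    have := congrArg (PowerSeries.coeff 0) h1
    rw [Polynomial.coeff_coe] at this
    rw [hb, this]
    simp
  have hd0 : (dual p).coeff 0 = starRingEnd ℂ a := by
    unfold dual
    rw [coeff_map, coeff_zero_reverse]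
  have hH0 : a = PowerSeries.coeff 0 H * PowerSeries.coeff 0 T := by
    have := congrArg (PowerSeries.coeff 0) h2
    rw [PowerSeries.coeff_C_mul, PowerSeries.coeff_C_mul, Polynomial.coeff_coe, hd0,
      mul_comm a] at this
    have h4 := mul_left_cancel₀ hca0 this
    rw [h4]
    simp
  have nF : ‖PowerSeries.coeff 0 F‖ = ‖b‖ / M := by
    rw [hF0, norm_mul, h3]
    field_simp
  have nH : ‖PowerSeries.coeff 0 H‖ = ‖a‖ / M := by
    rw [hH0, norm_mul, h3]
    field_simp
  have hFne : PowerSeries.coeff 0 F ≠ 0 := by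
    intro h
    rw [h, zero_mul] at hF0
    exact h0 hF0
  have hHne : PowerSeries.coeff 0 H ≠ 0 := by
    intro h
    rw [h, zero_mul] at hH0
    exact ha0 hH0
  have bF := coeff_bound F hF j hj0 hFne
  have bH := coeff_bound H hH j hj0 hHne
  rw [nF] at bF
  rw [nH] at bH
  -- the difference
  set E : PowerSeries ℂ := PowerSeries.C (starRingEnd ℂ a) * F -
    PowerSeries.C (b * (starRingEnd ℂ a) / a) * H with hE
  have hET : PowerSeries.C (starRingEnd ℂ a) * ((p : ℂ[X]) : PowerSeries ℂ) -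
      PowerSeries.C b * ((dual p : ℂ[X]) : PowerSeries ℂ) = E * T := by
    have h4 : ((dual p : ℂ[X]) : PowerSeries ℂ) =
        PowerSeries.C ((starRingEnd ℂ a) / a) * (H * T) := by
      have h5 : PowerSeries.C a⁻¹ * (PowerSeries.C a * ((dual p : ℂ[X]) : PowerSeries ℂ)) =
          PowerSeries.C a⁻¹ * (PowerSeries.C (starRingEnd ℂ a) * (H * T)) := by rw [h2]
      rw [← mul_assoc, ← map_mul, inv_mul_cancel₀ ha0, map_one, one_mul, ← mul_assoc,
        ← map_mul] at h5
      rw [h5, div_eq_inv_mul]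
    rw [h4, h1, hE, show b * (starRingEnd ℂ a) / a = b * ((starRingEnd ℂ a) / a) by ring, map_mul]
    ring
  have hcoef : ∀ i, starRingEnd ℂ a * p.coeff i - b * (dual p).coeff i =
      PowerSeries.coeff i (E * T) := by
    intro i
    rw [← hET, map_sub, PowerSeries.coeff_C_mul, PowerSeries.coeff_C_mul, Polynomial.coeff_coe,
      Polynomial.coeff_coe]
  have hTu : T * T⁻¹ = 1 := PowerSeries.mul_inv_cancel _ (by
    rw [← PowerSeries.coeff_zero_eq_constantCoeff_apply]; exact hT0)
  have hdvd : PowerSeries.X ^ j ∣ E := by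
    have h5 : PowerSeries.X ^ j ∣ E * T := by
      rw [PowerSeries.X_pow_dvd_iff]
      intro i hi
      rw [← hcoef i]
      exact hj i hi
    have h6 : E = (E * T) * T⁻¹ := by rw [mul_assoc, hTu, mul_one]
    rw [h6]
    exact dvd_mul_of_dvd_left h5 _
  obtain ⟨E', hE'⟩ := hdvd
  have hEj : PowerSeries.coeff j (E * T) = PowerSeries.coeff j E * PowerSeries.coeff 0 T := by
    rw [hE', mul_assoc, PowerSeries.coeff_X_pow_mul', if_pos le_rfl, Nat.sub_self,
      PowerSeries.coeff_X_pow_mul', if_pos le_rfl, Nat.sub_self]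
    simp
  have hEj2 : ‖PowerSeries.coeff j E‖ ≤ ‖a‖ * (1 - (‖b‖ / M) ^ 2) + ‖b‖ * (1 - (‖a‖ / M) ^ 2) := by
    rw [hE, map_sub, PowerSeries.coeff_C_mul, PowerSeries.coeff_C_mul]
    refine (norm_sub_le _ _).trans ?_
    rw [norm_mul, norm_mul, norm_div, norm_mul, RCLike.norm_conj]
    have h7 : ‖b‖ * ‖a‖ / ‖a‖ = ‖b‖ := by
      field_simp
    rw [h7]
    gcongr
  rw [hcoef j, hEj, norm_mul, h3]
  have hxM : ‖b‖ ≤ M := by
    have h8 : ‖PowerSeries.coeff 0 F‖ ^ 2 ≤ 1 := by
      have := hF 0 1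
      simpa [SN] using this
    rw [nF] at h8
    have h9 : ‖b‖ / M ≤ 1 := by
      by_contra hc
      push Not at hc
      nlinarith
    rwa [div_le_one hMpos] at h9
  have hyM : ‖a‖ ≤ M := by
    have h8 : ‖PowerSeries.coeff 0 H‖ ^ 2 ≤ 1 := by
      have := hH 0 1
      simpa [SN] using this
    rw [nH] at h8
    have h9 : ‖a‖ / M ≤ 1 := by
      by_contra hc
      push Not at hc
      nlinarith
    rwa [div_le_one hMpos] at h9
  apply real_ineq hMpos (norm_pos_iff.2 h0) (norm_pos_iff.2 ha0) hxM hyM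
  rw [mul_comm]
  exact mul_le_mul_of_nonneg_left hEj2 hMpos.le

end

end Pool.Agent.TH845.KN
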