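import Pool.Agent.H25.MM.TH845.KN.A1
import Pool.Agent.H25.MM.W242.IM.NF

/-!
# The lower bound in one variable

`E` is a number field with a ring endomorphism `c` which becomes complex conjugation under every
embedding, `g` a polynomial over the integers of `E` with `g(0) ≠ 0` which is not proportional to
its conjugate reciprocal.  Then `2 ^ [E : ℚ] ≤ (∏ M(g^σ)) ^ 3`.
-/

set_option autoImplicit false

open Polynomial NumberField

namespace Pool.Agent.TH845.KN

open Pool.Agent.W242.IM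

noncomputable section

variable {E : Type} [Field E] [NumberField E]

/-- the norm of a nonzero integer is at least one in absolute value -/
theorem prod_emb_ge (x : 𝓞 E) (hx : x ≠ 0) : 1 ≤ ∏ σ : E →+* ℂ, ‖emb σ x‖ := by
  have h1 := Algebra.norm_eq_prod_embeddings ℚ ℂ ((algebraMap (𝓞 E) E) x)
  have h2 : (∏ σ : E →+* ℂ, ‖emb σ x‖) = ‖(algebraMap ℚ ℂ) (Algebra.norm ℚ ((algebraMap (𝓞 E) E) x))‖ := by
    rw [h1, norm_prod]
    refine Fintype.prod_equiv (RingHom.equivRatAlgHom E ℂ) _ _ fun σ => ?_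
    rfl
  rw [h2]
  have h3 : Algebra.norm ℚ ((algebraMap (𝓞 E) E) x) = ((Algebra.norm ℤ x : ℤ) : ℚ) := by
    rw [Algebra.coe_norm_int]
  have h4 : Algebra.norm ℤ x ≠ 0 := Algebra.norm_ne_zero_iff.2 hx
  rw [h3]
  have h5 : (algebraMap ℚ ℂ) ((Algebra.norm ℤ x : ℤ) : ℚ) = ((Algebra.norm ℤ x : ℤ) : ℂ) := by
    simp
  rw [h5, Complex.norm_intCast]
  exact_mod_cast Int.one_le_abs h4

/-- `c` becomes complex conjugation under every embedding -/
def IsConj (c : 𝓞 E →+* 𝓞 E) : Prop := ∀ (σ : E →+* ℂ) (x : 𝓞 E), emb σ (c x) = starRingEnd ℂ (emb σ x)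

theorem emb_injective (σ : E →+* ℂ) : Function.Injective (emb σ) := by
  intro x y h
  exact RingOfIntegers.ext (σ.injective h)

theorem one_var {c : 𝓞 E →+* 𝓞 E} (hc : IsConj c) (g : (𝓞 E)[X]) (h0 : g.coeff 0 ≠ 0)
    (hne : C (c g.leadingCoeff) * g ≠ C (g.coeff 0) * (g.reverse).map c) :
    (2 : ℝ) ^ Module.finrank ℚ E ≤ (∏ σ : E →+* ℂ, (g.map (emb σ)).mahlerMeasure) ^ 3 := by
  classical
  have hg : g ≠ 0 := by
    rintro rfl
    simp at h0
  set w : (𝓞 E)[X] := C (c g.leadingCoeff) * g - C (g.coeff 0) * (g.reverse).map c with hw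
  have hw0 : w ≠ 0 := sub_ne_zero.2 hne
  set j := w.natTrailingDegree with hj
  have hjc : w.coeff j ≠ 0 := mt Polynomial.trailingCoeff_eq_zero.1 hw0
  have hlow : ∀ i < j, w.coeff i = 0 := fun i hi => coeff_eq_zero_of_lt_natTrailingDegree hi
  have hj0 : 0 < j := by
    rw [Nat.pos_iff_ne_zero]
    intro hj0
    rw [hj0] at hjc
    apply hjc
    rw [hw, coeff_sub, coeff_C_mul, coeff_C_mul, coeff_map, coeff_zero_reverse]
    ring
  have hlead : ∀ σ : E →+* ℂ, (g.map (emb σ)).leadingCoeff = emb σ g.leadingCoeff := fun σ =>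
    leadingCoeff_map_of_injective (emb_injective σ) g
  have hdual : ∀ (σ : E →+* ℂ) (i : ℕ), (dual (g.map (emb σ))).coeff i =
      emb σ (((g.reverse).map c).coeff i) := by
    intro σ i
    have h1 : (g.map (emb σ)).natDegree = g.natDegree :=
      natDegree_map_eq_of_injective (emb_injective σ) g
    unfold dual
    rw [coeff_map, coeff_map, hc, coeff_reverse, coeff_reverse, h1, coeff_map]
  have hcoef : ∀ (σ : E →+* ℂ) (i : ℕ), starRingEnd ℂ (g.map (emb σ)).leadingCoeff *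
      (g.map (emb σ)).coeff i - (g.map (emb σ)).coeff 0 * (dual (g.map (emb σ))).coeff i =
      emb σ (w.coeff i) := by
    intro σ i
    rw [hlead, hdual, coeff_map, coeff_map, hw, coeff_sub, coeff_C_mul, coeff_C_mul, map_sub,
      map_mul, map_mul, hc]
  have hbound : ∀ σ : E →+* ℂ, 4 * (‖emb σ (w.coeff j)‖ * (‖emb σ (g.coeff 0)‖ *
      ‖emb σ g.leadingCoeff‖) ^ 2) ≤ (g.map (emb σ)).mahlerMeasure ^ 6 := by
    intro σ
    have h1 := dual_bound (g.map (emb σ)) (by
      rw [coeff_map]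
      exact (map_ne_zero_iff _ (emb_injective σ)).2 h0) j (fun i hi => by
        rw [hcoef, hlow i hi, map_zero]) hj0
    rw [hcoef, hlead, coeff_map] at h1
    exact h1
  have hprod : ∏ σ : E →+* ℂ, (4 * (‖emb σ (w.coeff j)‖ * (‖emb σ (g.coeff 0)‖ *
      ‖emb σ g.leadingCoeff‖) ^ 2)) ≤ ∏ σ : E →+* ℂ, (g.map (emb σ)).mahlerMeasure ^ 6 :=
    Finset.prod_le_prod (fun σ _ => by positivity) (fun σ _ => hbound σ)
  rw [Finset.prod_mul_distrib, Finset.prod_mul_distrib, Finset.prod_pow, Finset.prod_pow,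
    Finset.prod_mul_distrib, Finset.prod_const, Finset.card_univ, NumberField.Embeddings.card] at hprod
  have e1 := prod_emb_ge (w.coeff j) hjc
  have e2 := prod_emb_ge (g.coeff 0) h0
  have e3 := prod_emb_ge g.leadingCoeff (leadingCoeff_ne_zero.2 hg)
  set P := ∏ σ : E →+* ℂ, (g.map (emb σ)).mahlerMeasure with hP
  have hP0 : 0 ≤ P := Finset.prod_nonneg fun σ _ => mahlerMeasure_nonneg _
  have h4 : (4 : ℝ) ^ Module.finrank ℚ E ≤ P ^ 6 := by
    refine le_trans ?_ hprod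
    have h5 : 1 ≤ (∏ σ : E →+* ℂ, ‖emb σ (w.coeff j)‖) *
        ((∏ σ : E →+* ℂ, ‖emb σ (g.coeff 0)‖) * ∏ σ : E →+* ℂ, ‖emb σ g.leadingCoeff‖) ^ 2 := by
      have h6 := one_le_mul_of_one_le_of_one_le e2 e3
      have h7 := one_le_pow₀ h6 (n := 2)
      exact one_le_mul_of_one_le_of_one_le e1 h7
    exact le_mul_of_one_le_right (by positivity) h5
  have h8 : ((2 : ℝ) ^ Module.finrank ℚ E) ^ 2 ≤ (P ^ 3) ^ 2 := by
    rw [← pow_mul, ← pow_mul, mul_comm, pow_mul]
    norm_num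
    exact h4
  exact le_of_sq_le_sq h8 (by positivity)

end

end Pool.Agent.TH845.KN
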