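import Pool.Agent.H25.MM.TH845.KN.A4

/-!
# The conjugate reciprocal of a polynomial in several variables
-/

set_option autoImplicit false

open NumberField Filter

namespace Pool.Agent.TH845.KN

open Pool.Agent.W242.IM Pool.Agent.H261R2.CM

noncomputable section

variable {E : Type} [Field E] [NumberField E] {k : ℕ}

/-- the vector of the degrees in the variables -/
def dgv (f : MvPolynomial (Fin k) (𝓞 E)) : Fin k →₀ ℕ :=
  Finsupp.equivFunOnFinite.symm fun i => f.degreeOf i

/-- the conjugate reciprocal -/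
def dagger (c : 𝓞 E →+* 𝓞 E) (f : MvPolynomial (Fin k) (𝓞 E)) : MvPolynomial (Fin k) (𝓞 E) :=
  ∑ s ∈ f.support, MvPolynomial.monomial
    (Finsupp.equivFunOnFinite.symm fun i => f.degreeOf i - s i) (c (f.coeff s))

theorem dagger_eq (c : 𝓞 E →+* 𝓞 E) (f : MvPolynomial (Fin k) (𝓞 E)) :
    dagger c f = ∑ s ∈ f.support, MvPolynomial.monomial (dgv f - s) (c (f.coeff s)) := by
  unfold dagger
  refine Finset.sum_congr rfl fun s _ => ?_
  have h1 : (Finsupp.equivFunOnFinite.symm fun i => f.degreeOf i - s i) = dgv f - s := by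
    ext i
    rfl
  rw [h1]

theorem le_dgv {f : MvPolynomial (Fin k) (𝓞 E)} {s : Fin k →₀ ℕ} (hs : s ∈ f.support) :
    s ≤ dgv f := by
  intro i
  exact MvPolynomial.monomial_le_degreeOf i hs

theorem selfDual_rel {c : 𝓞 E →+* 𝓞 E} {f : MvPolynomial (Fin k) (𝓞 E)} (h : SelfDual c f) :
    ∃ s0 ∈ f.support, ∃ s1 ∈ f.support,
      MvPolynomial.monomial (dgv f) (c (f.coeff s1)) * f =
        MvPolynomial.monomial (s0 + s1) (f.coeff s0) * dagger c f := by
  classical
  obtain ⟨s0, hs0, s1, hs1, h⟩ := h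
  refine ⟨s0, hs0, s1, hs1, ?_⟩
  have e1 : MvPolynomial.monomial (dgv f) (c (f.coeff s1)) * f =
      ∑ s ∈ f.support, MvPolynomial.monomial (dgv f) (c (f.coeff s1)) *
        MvPolynomial.monomial s (f.coeff s) := by
    rw [← Finset.mul_sum, ← f.as_sum]
  rw [e1, dagger_eq, Finset.mul_sum]
  choose! w hw1 hw2 hw3 using h
  refine Finset.sum_bij (fun s _ => w s) (fun s hs => hw1 s hs) ?_ ?_ ?_
  · intro s hs t ht hst
    have h1 := hw2 s hs
    have h2 := hw2 t ht
    have hst' : w s = w t := hst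
    rw [hst', ← h2] at h1
    exact add_right_cancel h1
  · intro s hs
    refine ⟨w s, hw1 s hs, ?_⟩
    have h1 := hw2 s hs
    have h2 := hw2 (w s) (hw1 s hs)
    rw [← h1, add_comm s] at h2
    exact add_left_cancel h2
  · intro s hs
    rw [MvPolynomial.monomial_mul, MvPolynomial.monomial_mul, hw3 s hs]
    congr 1
    rw [← hw2 s hs, add_assoc, add_tsub_cancel_of_le (le_dgv (hw1 s hs)), add_comm]

/-- the polynomial over the field -/
def toE (f : MvPolynomial (Fin k) (𝓞 E)) : MvPolynomial (Fin k) E :=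
  MvPolynomial.map (algebraMap (𝓞 E) E) f

theorem toE_injective : Function.Injective (toE (E := E) (k := k)) :=
  MvPolynomial.map_injective _ (RingOfIntegers.coe_injective)

theorem monomial_of_selfDual {c : 𝓞 E →+* 𝓞 E} {f : MvPolynomial (Fin k) (𝓞 E)}
    (h : SelfDual c f) (hcop : IsRelPrime (toE f) (toE (dagger c f))) :
    ∃ s a, f = MvPolynomial.monomial s a := by
  classical
  obtain ⟨s0, hs0, s1, hs1, h⟩ := selfDual_rel h
  have h1 := congrArg toE h
  unfold toE at h1 hcop
  rw [map_mul, map_mul, MvPolynomial.map_monomial, MvPolynomial.map_monomial] at h1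
  have ha0 : (algebraMap (𝓞 E) E) (f.coeff s0) ≠ 0 := by
    rw [Ne, map_eq_zero_iff _ (RingOfIntegers.coe_injective)]
    exact MvPolynomial.mem_support_iff.1 hs0
  have h2 : MvPolynomial.map (algebraMap (𝓞 E) E) f ∣
      MvPolynomial.monomial (s0 + s1) ((algebraMap (𝓞 E) E) (f.coeff s0)) :=
    hcop.dvd_of_dvd_mul_right (Dvd.intro_left _ h1)
  rw [MvPolynomial.dvd_monomial_iff_exists ha0] at h2
  obtain ⟨m, b, _, _, h3⟩ := h2
  refine ⟨m, f.coeff m, ?_⟩
  ext n
  have h4 := congrArg (MvPolynomial.coeff n) h3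
  rw [MvPolynomial.coeff_map, MvPolynomial.coeff_monomial] at h4
  rw [MvPolynomial.coeff_monomial]
  split_ifs with hmn
  · rw [hmn]
  · rw [if_neg hmn] at h4
    rw [(map_eq_zero_iff _ (RingOfIntegers.coe_injective)).1 h4]

/-- modulus of the conjugate reciprocal on the torus -/
theorem norm_dagger {c : 𝓞 E →+* 𝓞 E} (hc : IsConj c) (f : MvPolynomial (Fin k) (𝓞 E))
    (σ : E →+* ℂ) (z : Fin k → ℂ) (hz : ∀ i, ‖z i‖ = 1) :
    ‖MvPolynomial.eval z (MvPolynomial.map (emb σ) (dagger c f))‖ =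
      ‖MvPolynomial.eval z (MvPolynomial.map (emb σ) f)‖ := by
  classical
  have hzz : ∀ i, (starRingEnd ℂ (z i)) * z i = 1 := by
    intro i
    have h1 := Complex.normSq_eq_conj_mul_self (z := z i)
    rw [← h1, Complex.normSq_eq_norm_sq, hz i]
    simp
  have hmon : ∀ s : Fin k →₀ ℕ, ∀ a : ℂ, MvPolynomial.eval z (MvPolynomial.monomial s a) =
      a * ∏ i, z i ^ s i := by
    intro s a
    rw [MvPolynomial.eval_monomial, Finsupp.prod_fintype _ _ (by simp)]
  have h1 : MvPolynomial.eval z (MvPolynomial.map (emb σ) (dagger c f)) =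
      (∏ i, z i ^ (dgv f i)) *
        starRingEnd ℂ (MvPolynomial.eval z (MvPolynomial.map (emb σ) f)) := by
    have h2 : MvPolynomial.eval z (MvPolynomial.map (emb σ) f) =
        ∑ s ∈ f.support, emb σ (f.coeff s) * ∏ i, z i ^ s i := by
      conv_lhs => rw [f.as_sum]
      rw [map_sum, map_sum]
      refine Finset.sum_congr rfl fun s _ => ?_
      rw [MvPolynomial.map_monomial, hmon]
    rw [h2, dagger_eq, map_sum, map_sum, map_sum, Finset.mul_sum]
    refine Finset.sum_congr rfl fun s hs => ?_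
    rw [MvPolynomial.map_monomial, hmon, hc σ, map_mul, map_prod, mul_left_comm,
      ← Finset.prod_mul_distrib]
    congr 1
    refine Finset.prod_congr rfl fun i _ => ?_
    rw [Finsupp.tsub_apply, map_pow]
    have h3 : dgv f i = (dgv f i - s i) + s i := (Nat.sub_add_cancel (le_dgv hs i)).symm
    conv_rhs => rw [h3]
    rw [pow_add, mul_assoc, ← mul_pow, mul_comm (z i), hzz, one_pow, mul_one]
  rw [h1, norm_mul, norm_prod, RCLike.norm_conj]
  have h4 : ∀ i, ‖z i ^ dgv f i‖ = 1 := fun i => by rw [norm_pow, hz i, one_pow]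
  simp only [h4, Finset.prod_const_one, one_mul]

end

end Pool.Agent.TH845.KN
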