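import Pool.Agent.H25.MM.TH845.KN.A7

/-!
# Norms of polynomials coprime to their conjugate reciprocal lie in the exhaustion of Boyd's set
-/

set_option autoImplicit false

open NumberField Filter MeasureTheory

namespace Pool.Agent.TH845.KN

open Pool.Agent.W242.IM Pool.Agent.H261R2.CM

noncomputable section

/-- integers lie in the exhaustion -/
theorem nat_mem_LL (N : ℕ) (hN : 1 ≤ N) (K : ℝ) (hK : Real.log N ≤ K) : (N : ℝ) ∈ LL K := by
  have hN0 : ((N : ℕ) : ℤ) ≠ 0 := by exact_mod_cast (by omega : N ≠ 0)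
  have h1 := LL_length (k := 1) le_rfl (MvPolynomial.C (N : ℤ)) (by
    intro h
    exact hN0 (MvPolynomial.C_injective (Fin 1) ℤ (by rw [h, map_zero]))) K (by
      have h2 : (MvPolynomial.C (N : ℤ) : MvPolynomial (Fin 1) ℤ).support ⊆ {0} := by
        rw [← MvPolynomial.monomial_zero']
        exact MvPolynomial.support_monomial_subset
      have h3 : (∑ s ∈ (MvPolynomial.C (N : ℤ) : MvPolynomial (Fin 1) ℤ).support,
          |(MvPolynomial.C (N : ℤ) : MvPolynomial (Fin 1) ℤ).coeff s| : ℤ) ≤ (N : ℤ) := by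
        refine (Finset.sum_le_sum_of_subset_of_nonneg h2 fun _ _ _ => abs_nonneg _).trans ?_
        rw [Finset.sum_singleton, MvPolynomial.coeff_zero_C]
        simp
      have h4 : ((∑ s ∈ (MvPolynomial.C (N : ℤ) : MvPolynomial (Fin 1) ℤ).support,
          |(MvPolynomial.C (N : ℤ) : MvPolynomial (Fin 1) ℤ).coeff s| : ℤ) : ℝ) ≤ (N : ℝ) := by
        exact_mod_cast h3
      refine h4.trans ?_
      have hNr : (0 : ℝ) < N := by exact_mod_cast hN
      rw [← Real.log_le_iff_le_exp hNr]
      exact hK)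
  have h5 := J.mM_C (k := 1) hN0
  rw [h5] at h1
  simpa using h1

variable {E : Type} [Field E] [NumberField E] {k : ℕ}

theorem tv_cprod {f : MvPolynomial (Fin k) (𝓞 E)} {F : MvPolynomial (Fin k) ℤ}
    (hF : MvPolynomial.map (Int.castRingHom ℂ) F = cprod f) (t : Fin k → ℝ) :
    tv F t = ∏ σ : E →+* ℂ, MvPolynomial.eval (J.zz t) (MvPolynomial.map (emb σ) f) := by
  unfold tv
  rw [hF]
  unfold cprod
  rw [map_prod]
  rfl

theorem prod_emb_int (x : 𝓞 E) (hx : x ≠ 0) :
    ∃ N : ℕ, 1 ≤ N ∧ (∏ σ : E →+* ℂ, ‖emb σ x‖) = (N : ℝ) := by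
  refine ⟨(Algebra.norm ℤ x).natAbs, ?_, ?_⟩
  · have h4 : Algebra.norm ℤ x ≠ 0 := Algebra.norm_ne_zero_iff.2 hx
    exact Int.natAbs_pos.2 h4
  · have h1 := Algebra.norm_eq_prod_embeddings ℚ ℂ ((algebraMap (𝓞 E) E) x)
    have h2 : (∏ σ : E →+* ℂ, ‖emb σ x‖) =
        ‖(algebraMap ℚ ℂ) (Algebra.norm ℚ ((algebraMap (𝓞 E) E) x))‖ := by
      rw [h1, norm_prod]
      exact Fintype.prod_equiv (RingHom.equivRatAlgHom E ℂ) _ _ fun σ => rfl
    have h3 : Algebra.norm ℚ ((algebraMap (𝓞 E) E) x) = ((Algebra.norm ℤ x : ℤ) : ℚ) := by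
      rw [Algebra.coe_norm_int]
    rw [h2, h3]
    have h5 : (algebraMap ℚ ℂ) ((Algebra.norm ℤ x : ℤ) : ℚ) = ((Algebra.norm ℤ x : ℤ) : ℂ) := by
      simp
    rw [h5, Complex.norm_intCast, Nat.cast_natAbs, Int.cast_abs]

theorem norm_monomial_eval (z : Fin k → ℂ) (hz : ∀ i, ‖z i‖ = 1) (s : Fin k →₀ ℕ) (a : ℂ) :
    ‖MvPolynomial.eval z (MvPolynomial.monomial s a)‖ = ‖a‖ := by
  rw [MvPolynomial.eval_monomial, Finsupp.prod_fintype _ _ (by simp), norm_mul, norm_prod]
  have h4 : ∀ i, ‖z i ^ s i‖ = 1 := fun i => by rw [norm_pow, hz i, one_pow]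
  simp only [h4, Finset.prod_const_one, mul_one]

/-- **Main membership theorem.** -/
theorem mem_LL {c : 𝓞 E →+* 𝓞 E} (hc : IsConj c) (f : MvPolynomial (Fin k) (𝓞 E)) (hf : f ≠ 0)
    (hcop : IsRelPrime (toE f) (toE (dagger c f))) (F : MvPolynomial (Fin k) ℤ)
    (hF : MvPolynomial.map (Int.castRingHom ℂ) F = cprod f) :
    1 ≤ mM F ∧ mM F ∈ LL (4 * Real.log (mM F)) := by
  classical
  have hfE : toE f ≠ 0 := by
    intro h
    apply hf
    apply toE_injective
    rw [h]
    unfold toE
    rw [map_zero]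
  have hF0 : F ≠ 0 := by
    have h1 := isN_ne_zero (isN_of_int hF) hfE
    rintro rfl
    rw [map_zero] at h1
    exact h1 rfl
  have hM1 : 1 ≤ mM F := one_le_mM F hF0
  refine ⟨hM1, ?_⟩
  by_cases hsd : SelfDual c f
  · obtain ⟨s, a, rfl⟩ := monomial_of_selfDual hsd hcop
    have ha : a ≠ 0 := by
      rintro rfl
      exact hf (MvPolynomial.monomial_zero)
    obtain ⟨N, hN1, hN⟩ := prod_emb_int a ha
    have h1 : mM F = N := by
      have hNr : (0 : ℝ) < N := by exact_mod_cast hN1
      apply J.mM_of_norm_const hNr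
      intro t
      rw [tv_cprod hF, norm_prod, ← hN]
      refine Finset.prod_congr rfl fun σ _ => ?_
      rw [MvPolynomial.map_monomial, norm_monomial_eval _ (J.norm_zz t)]
    rw [h1]
    apply nat_mem_LL N hN1
    have h2 : 0 ≤ Real.log N := Real.log_nonneg (by exact_mod_cast hN1)
    linarith
  · have hlow := lower_bound hc f hf hsd F hF0 hF
    set n := Module.finrank ℚ E with hn
    set h : MvPolynomial (Fin (k + 1)) (𝓞 E) := MvPolynomial.rename Fin.succ f +
      MvPolynomial.X 0 * MvPolynomial.rename Fin.succ (dagger c f) with hh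
    obtain ⟨P, hP⟩ := norm_int h
    have hPN := isN_of_int hP
    have htoE : toE h = MvPolynomial.rename Fin.succ (toE f) +
        MvPolynomial.X 0 * MvPolynomial.rename Fin.succ (toE (dagger c f)) := by
      rw [hh]
      unfold toE
      rw [map_add, map_mul, MvPolynomial.map_rename, MvPolynomial.map_rename, MvPolynomial.map_X]
    have hE0 : toE h ≠ 0 := by
      intro h3
      have h4 : sub0 0 (toE h) = toE f := by
        rw [htoE, map_add, map_mul, sub0_rename, sub0_rename, sub0_X0, map_zero, zero_mul,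
          add_zero]
      rw [h3, map_zero] at h4
      exact hfE h4.symm
    have hP0 : P ≠ 0 := by
      have h1 := isN_ne_zero hPN hE0
      rintro rfl
      rw [map_zero] at h1
      exact h1 rfl
    obtain ⟨a, P', ha0, hPP', hprim⟩ := exists_primitive P hP0
    have hP'0 : P' ≠ 0 := by
      rintro rfl
      rw [mul_zero] at hPP'
      exact hP0 hPP'
    set F' : MvPolynomial (Fin (k + 1)) ℤ := MvPolynomial.rename Fin.succ F with hF'
    have hF'0 : F' ≠ 0 := J.rename_ne_zero hF0
    have hrel : IsRelPrime F' P' := by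
      intro d hd1 hd2
      obtain ⟨b, rfl⟩ := const_of_dvd (toE f) (toE (dagger c f)) hfE hcop F hF0 P
        (by rw [← htoE]; exact hPN) d hd1 (by rw [hPP']; exact dvd_mul_of_dvd_right hd2 _)
      exact (hprim b hd2).map MvPolynomial.C
    have hpt : ∀ t : Fin (k + 1) → ℝ, ‖tv P' t‖ ≤ 2 ^ n * ‖tv F' t‖ := by
      intro t
      have h1 : ‖tv P' t‖ ≤ ‖tv P t‖ := by
        rw [hPP', J.tv_mul, J.tv_C, norm_mul, Complex.norm_intCast]
        have h2 : (1 : ℝ) ≤ |((a : ℤ) : ℝ)| := by exact_mod_cast Int.one_le_abs ha0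
        exact le_mul_of_one_le_left (norm_nonneg _) h2
      refine h1.trans ?_
      rw [hF', J.tv_rename, tv_cprod hP, tv_cprod hF, norm_prod, norm_prod]
      have h3 : (2 : ℝ) ^ n = ∏ σ : E →+* ℂ, (2 : ℝ) := by
        rw [Finset.prod_const, Finset.card_univ, NumberField.Embeddings.card]
      rw [h3, ← Finset.prod_mul_distrib]
      refine Finset.prod_le_prod (fun _ _ => norm_nonneg _) fun σ _ => ?_
      have h4 : MvPolynomial.eval (J.zz t) (MvPolynomial.map (emb σ) h) =
          MvPolynomial.eval (J.zz fun j : Fin k => t j.succ) (MvPolynomial.map (emb σ) f) +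
          J.zz t 0 * MvPolynomial.eval (J.zz fun j : Fin k => t j.succ)
            (MvPolynomial.map (emb σ) (dagger c f)) := by
        rw [hh, map_add, map_mul, map_add, map_mul, MvPolynomial.map_rename,
          MvPolynomial.map_rename, MvPolynomial.map_X, MvPolynomial.eval_X,
          MvPolynomial.eval_rename, MvPolynomial.eval_rename]
        rfl
      rw [h4]
      refine (norm_add_le _ _).trans ?_
      rw [norm_mul, J.norm_zz, one_mul, norm_dagger hc f σ _ (J.norm_zz _)]
      linarith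
    refine ⟨k + 1, by omega, F', P', hF'0, hP'0, hrel, ?_, (J.mM_rename F).symm⟩
    have hlog : (n : ℝ) * Real.log 2 ≤ 3 * Real.log (mM F) := by
      have h1 := Real.log_le_log (by positivity) hlow
      rw [Real.log_pow, Real.log_pow] at h1
      exact_mod_cast h1
    have hI : mx F' P' ≤ (n : ℝ) * Real.log 2 + Real.log (mM F') := by
      rw [log_mM]
      unfold mx
      have hint1 : Integrable (fun t : Fin (k + 1) → ℝ => Real.log (max ‖tv F' t‖ ‖tv P' t‖))
          (volume.restrict (Set.Icc (0 : Fin (k + 1) → ℝ) 1)) := by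
        have h7 := K4_intk thM thM_cont thM_ge F' P' hF'0
        have h8 : ∀ t : Fin (k + 1) → ℝ, Real.log (max ‖tv F' t‖ ‖tv P' t‖) =
            1 / 2 * Real.log (thM ‖tv F' t‖ ‖tv P' t‖) := by
          intro t
          rw [thM_log (norm_nonneg _) (norm_nonneg _)]
          ring
        simp only [h8]
        exact h7.const_mul (1 / 2)
      have hint2 := F_integrable hF'0
      have h9 : (∫ _ in Set.Icc (0 : Fin (k + 1) → ℝ) 1, ((n : ℝ) * Real.log 2)) =
          (n : ℝ) * Real.log 2 := by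
        rw [setIntegral_const, J.vol_cube, one_smul]
      rw [← h9, ← integral_add (integrable_const _) hint2]
      refine integral_mono_ae hint1 ((integrable_const _).add hint2) ?_
      filter_upwards [F_zero_null hF'0] with t ht
      have h10 : 0 < ‖tv F' t‖ := norm_pos_iff.mpr ht
      have h11 : max ‖tv F' t‖ ‖tv P' t‖ ≤ 2 ^ n * ‖tv F' t‖ := by
        apply max_le _ (hpt t)
        exact le_mul_of_one_le_left (norm_nonneg _) (one_le_pow₀ (by norm_num))
      have h12 : 0 < max ‖tv F' t‖ ‖tv P' t‖ := lt_max_of_lt_left h10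
      have h13 := Real.log_le_log h12 h11
      rw [Real.log_mul (by positivity) h10.ne', Real.log_pow] at h13
      exact h13
    rw [J.mM_rename] at hI
    linarith

end

end Pool.Agent.TH845.KN
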