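import Pool.Agent.H25.MM.TH845.KN.B1
import Pool.Agent.H25.MM.W242.IM.Final2

/-!
# The monoid generated by a class with bounded companions
-/

set_option autoImplicit false

open NumberField Filter MeasureTheory

namespace Pool.Agent.TH845.KN

open Pool.Agent.W242.IM Pool.Agent.H261R2.CM

noncomputable section

/-- bounded companions -/
def BC (T : Set ℝ) : Prop := ∀ B : ℝ, ∃ K : ℝ, T ∩ Set.Iio B ⊆ LL K

theorem one_le_of_LL {K x : ℝ} (h : x ∈ LL K) : 1 ≤ x := by
  obtain ⟨k, _, F, G, hF, _, _, _, rfl⟩ := h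
  exact one_le_mM F hF

theorem one_mem_LL : (1 : ℝ) ∈ LL 0 := by
  have := nat_mem_LL 1 le_rfl 0 (by simp)
  simpa using this

theorem BC.one_le {T : Set ℝ} (hT : BC T) {x : ℝ} (hx : x ∈ T) : 1 ≤ x := by
  obtain ⟨K, hK⟩ := hT (x + 1)
  exact one_le_of_LL (hK ⟨hx, by simp⟩)

theorem BC.union {S T : Set ℝ} (hS : BC S) (hT : BC T) : BC (S ∪ T) := by
  intro B
  obtain ⟨K1, h1⟩ := hS B
  obtain ⟨K2, h2⟩ := hT B
  refine ⟨max K1 K2, ?_⟩
  rintro x ⟨hx | hx, hB⟩
  · exact LL_mono (le_max_left _ _) (h1 ⟨hx, hB⟩)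
  · exact LL_mono (le_max_right _ _) (h2 ⟨hx, hB⟩)

theorem gap_BC {T : Set ℝ} (hT : BC T) : ∃ c : ℝ, 1 < c ∧ ∀ x ∈ T, x = 1 ∨ c ≤ x := by
  obtain ⟨K, hK⟩ := hT 2
  obtain ⟨c, hc, h⟩ := gap_all K
  refine ⟨min c 2, lt_min hc one_lt_two, fun x hx => ?_⟩
  by_cases h2 : x < 2
  · obtain ⟨k, _, F, G, hF, hG, hFG, hKK, rfl⟩ := hK ⟨hx, h2⟩
    rcases h k F G hF hG hFG hKK with h3 | h3
    · exact Or.inl h3
    · exact Or.inr ((min_le_left _ _).trans h3)
  · exact Or.inr ((min_le_right _ _).trans (not_lt.1 h2))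

theorem BC_monoid {T : Set ℝ} (hT : BC T) : BC (Submonoid.closure T : Set ℝ) := by
  intro B
  obtain ⟨K0, hK0⟩ := hT B
  obtain ⟨c, hc, hgap⟩ := gap_BC hT
  have hlc : 0 < Real.log c := Real.log_pos hc
  set K : ℝ := max K0 0 with hK
  have hKn : 0 ≤ K := le_max_right _ _
  have key : ∀ x ∈ Submonoid.closure T, 1 ≤ x ∧ (x < B → x ∈ LL (K * (Real.log x / Real.log c))) := by
    intro x hx
    induction hx using Submonoid.closure_induction with
    | mem x hx =>
      refine ⟨hT.one_le hx, fun hB => ?_⟩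
      rcases hgap x hx with h1 | h1
      · rw [h1, Real.log_one, zero_div, mul_zero]
        exact one_mem_LL
      · have h2 : 1 ≤ Real.log x / Real.log c := by
          rw [one_le_div hlc]
          exact Real.log_le_log (by linarith) h1
        refine LL_mono ?_ (hK0 ⟨hx, hB⟩)
        calc K0 ≤ K := le_max_left _ _
          _ = K * 1 := (mul_one K).symm
          _ ≤ K * (Real.log x / Real.log c) := by gcongr
    | one =>
      refine ⟨le_rfl, fun _ => ?_⟩
      rw [Real.log_one, zero_div, mul_zero]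
      exact one_mem_LL
    | mul x y hx hy ihx ihy =>
      obtain ⟨hx1, hx2⟩ := ihx
      obtain ⟨hy1, hy2⟩ := ihy
      refine ⟨one_le_mul_of_one_le_of_one_le hx1 hy1, fun hB => ?_⟩
      have h1 : x < B := lt_of_le_of_lt (le_mul_of_one_le_right (by linarith) hy1) hB
      have h2 : y < B := lt_of_le_of_lt (le_mul_of_one_le_left (by linarith) hx1) hB
      have h3 := LL_mul (hx2 h1) (hy2 h2)
      refine LL_mono (le_of_eq ?_) h3
      rw [Real.log_mul (by linarith) (by linarith)]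
      ring
  refine ⟨K * (Real.log B / Real.log c), ?_⟩
  rintro x ⟨hx, hB⟩
  obtain ⟨h1, h2⟩ := key x hx
  refine LL_mono ?_ (h2 hB)
  have h3 : Real.log x ≤ Real.log B := Real.log_le_log (by linarith) (le_of_lt hB)
  gcongr

/-! ### Conversion to polynomials over the field -/

variable {E : Type} [Field E] {k : ℕ}

/-- the conjugate reciprocal over the field -/
def cr (c : E →+* E) (f : MvPolynomial (Fin k) E) : MvPolynomial (Fin k) E :=
  ∑ s ∈ f.support, MvPolynomial.monomial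
    (Finsupp.equivFunOnFinite.symm fun i => f.degreeOf i - s i) (c (f.coeff s))

variable [NumberField E]

theorem exists_toE (f : MvPolynomial (Fin k) E) (hf : ∀ s, IsIntegral ℤ (f.coeff s)) :
    ∃ f0 : MvPolynomial (Fin k) (𝓞 E), toE f0 = f := by
  have h2 : f ∈ Set.range (MvPolynomial.map (σ := Fin k) (algebraMap (𝓞 E) E)) := by
    rw [MvPolynomial.mem_range_map_iff_coeffs_subset]
    intro a ha
    obtain ⟨s, hs, rfl⟩ := MvPolynomial.mem_coeffs_iff.1 ha
    exact ⟨⟨f.coeff s, hf s⟩, rfl⟩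
  exact h2

theorem toE_dagger (c : E →+* E) (f : MvPolynomial (Fin k) (𝓞 E)) :
    toE (dagger (RingOfIntegers.mapRingHom c) f) = cr c (toE f) := by
  classical
  have hs : (toE f).support = f.support :=
    MvPolynomial.support_map_of_injective _ (RingOfIntegers.coe_injective)
  have hd : ∀ i, (toE f).degreeOf i = f.degreeOf i := by
    intro i
    rw [MvPolynomial.degreeOf_eq_sup, MvPolynomial.degreeOf_eq_sup, hs]
  unfold dagger cr
  rw [hs]
  simp only [hd]
  unfold toE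
  rw [map_sum]
  refine Finset.sum_congr rfl fun s _ => ?_
  rw [MvPolynomial.map_monomial, MvPolynomial.coeff_map]
  rfl

theorem map_toE (σ : E →+* ℂ) (f : MvPolynomial (Fin k) (𝓞 E)) :
    MvPolynomial.map σ (toE f) = MvPolynomial.map (emb σ) f := by
  unfold toE
  rw [MvPolynomial.map_map]
  rfl

theorem kron_mem (c : E →+* E) (hc : ∀ (σ : E →+* ℂ) (a : E), σ (c a) = starRingEnd ℂ (σ a))
    (f : MvPolynomial (Fin k) E) (hf : f ≠ 0) (hint : ∀ s, IsIntegral ℤ (f.coeff s))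
    (hcop : IsRelPrime f (cr c f)) :
    1 ≤ ∏ σ : E →+* ℂ, mC (MvPolynomial.map σ f) ∧
      (∏ σ : E →+* ℂ, mC (MvPolynomial.map σ f)) ∈
        LL (4 * Real.log (∏ σ : E →+* ℂ, mC (MvPolynomial.map σ f))) := by
  obtain ⟨f0, rfl⟩ := exists_toE f hint
  have hf0 : f0 ≠ 0 := by
    rintro rfl
    apply hf
    unfold toE
    rw [map_zero]
  rw [← toE_dagger] at hcop
  obtain ⟨F, hF⟩ := norm_int f0
  have h1 := mem_LL (c := RingOfIntegers.mapRingHom c) (fun σ x => hc σ _) f0 hf0 hcop F hF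
  simp only [map_toE]
  rw [mM_norm hf0 hF] at h1
  exact h1

theorem pair_mem (f g : MvPolynomial (Fin k) E) (hf : f ≠ 0)
    (hint : ∀ s, IsIntegral ℤ (f.coeff s)) (hintg : ∀ s, IsIntegral ℤ (g.coeff s))
    (hcop : IsRelPrime f g) :
    (∏ σ : E →+* ℂ, mC (MvPolynomial.map σ f)) ∈
      LL ((∑ σ : E →+* ℂ, mxC (MvPolynomial.map σ f) (MvPolynomial.map σ g)) +
        Module.finrank ℚ E * Real.log 2) := by
  obtain ⟨f0, rfl⟩ := exists_toE f hint
  obtain ⟨g0, rfl⟩ := exists_toE g hintg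
  have hf0 : f0 ≠ 0 := by
    rintro rfl
    apply hf
    unfold toE
    rw [map_zero]
  simp only [map_toE]
  exact pair_norm f0 g0 hf0 hcop

end

end Pool.Agent.TH845.KN
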